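import Pool.Agent.H73.TS.Targets
import Pool.Agent.H42.TS.FUB
import Pool.Agent.H42.TS.DOM
import Pool.Agent.H84.TS.INT
import Pool.Agent.H33.TS.ROT
import Pool.Agent.H54.TS.ONE
import Pool.Agent.H11.TS.ISO
import Pool.Agent.H11.TS.MON
import Pool.Agent.H14.TS.VAL
import Pool.Agent.H14.TS.FLAT
import Pool.Agent.H31.TS.SLAB
import Pool.Agent.H3.TS.MOM
import Pool.Agent.H3.TS.PO
import Pool.Agent.H67.TS.HO
import Pool.Agent.H67.TS.TN
import Pool.Agent.H67.TS.ND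
import Pool.Agent.H59.TS.MA
import Pool.Agent.H59.TS.CNT
import Pool.Agent.H29.TS.TO
import Pool.Agent.H29.TS.TS
import Pool.Agent.H29.TS.SC
import Pool.Agent.H79.TS.CH
import Pool.Agent.H79.TS.LH
import Pool.Agent.H12.TS.PW
import Pool.Agent.H12.TS.SUP
import Pool.Agent.H84.TS.QB
import Pool.Agent.H84.TS.SL
import Pool.Agent.H68.TS.ES
import Pool.Agent.H68.TS.MI
import Pool.Agent.H66.TS.SS
import Pool.Agent.H51.TS.DD
import Pool.Agent.H74.TS.KEY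
import Pool.Agent.H89.TS.SUA

/-!
Assembly: superadditivity of the Wills functional and counting.
-/

namespace Pool.Agent.H73.TS

theorem aINT : T_INT := Pool.Agent.H84.TS.int Pool.Agent.H42.TS.dom

theorem aMON : T_MON := Pool.Agent.H11.TS.mon aINT

theorem aQB : T_QB := Pool.Agent.H84.TS.qb

theorem aPW : T_PW := Pool.Agent.H12.TS.pw Pool.Agent.H79.TS.ch Pool.Agent.H67.TS.ho

theorem aMOM : T_MOM := Pool.Agent.H3.TS.mom aINT

theorem aTS : T_TS := Pool.Agent.H29.TS.ts Pool.Agent.H29.TS.pf_TO Pool.Agent.H67.TS.ho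
  (Pool.Agent.H59.TS.ma Pool.Agent.H42.TS.fub) Pool.Agent.H42.TS.fub

theorem aSC (hTZ : T_TZ) : T_SC :=
  Pool.Agent.H29.TS.sc (Pool.Agent.H67.TS.tn hTZ aTS) aPW Pool.Agent.H79.TS.lh aMOM aINT aMON
    Pool.Agent.H42.TS.dom

theorem aSS : T_SS := Pool.Agent.H66.TS.ss Pool.Agent.H3.TS.po (Pool.Agent.H68.TS.es aQB) aQB

theorem aSL : T_SL := Pool.Agent.H84.TS.sl (Pool.Agent.H68.TS.mi aQB) aQB

theorem aND : T_ND := Pool.Agent.H67.TS.nd (Pool.Agent.H51.TS.pf_DD aSS aSL aQB) aQB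

theorem aKEY (hTZ : T_TZ) : T_KEY :=
  Pool.Agent.H74.TS.key (Pool.Agent.H31.TS.slab Pool.Agent.H42.TS.fub aINT) (aSC hTZ) aND aINT aQB

theorem aSUP (hTZ : T_TZ) : T_SUP :=
  Pool.Agent.H12.TS.sup Pool.Agent.H33.TS.pf_ROT Pool.Agent.H11.TS.iso
    (Pool.Agent.H89.TS.sua (Pool.Agent.H14.TS.val aINT)
      (Pool.Agent.H14.TS.flat Pool.Agent.H42.TS.fub) (aKEY hTZ))

theorem aCNT (hTZ : T_TZ) : T_CNT :=
  Pool.Agent.H59.TS.cnt (aSUP hTZ) Pool.Agent.H54.TS.one aMON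

end Pool.Agent.H73.TS
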