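import Pool.Agent.H73.TS.DefsB

/-!
Totally separable packings: products of an ellipsoid and a parallelotope.
-/

open MeasureTheory Set Metric
open scoped ENNReal

namespace Pool.Agent.H73.TS

/-- The product of the ellipsoid inscribed in the directions `w i`, `i ∈ I`, and of the
parallelotope in the remaining directions. -/
def EllPar {d : ℕ} (w : Fin d → E d) (v : E d) (I : Finset (Fin d)) : Set (E d) :=
  {y | ∃ a : Fin d → ℝ, (∑ i ∈ I, a i ^ 2 ≤ 1 / 4) ∧ (∀ i, i ∉ I → |a i| ≤ 1 / 2) ∧
    y = v + ∑ i, (1 / 2 + a i) • w i}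

end Pool.Agent.H73.TS
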