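import Pool.Agent.H73.TS.TargetsB
import Pool.Agent.H73.TS.DefsC

/-!
Targets for the window argument (products with parallelotopes, all dimensions).
-/

open MeasureTheory Set Metric Filter
open scoped ENNReal Topology

namespace Pool.Agent.H73.TS

/-- the coordinates `σ 0, ..., σ (k-1)` -/
noncomputable def prj {d k : ℕ} (σ : Fin k → Fin d) (x : E d) : E k :=
  WithLp.toLp 2 (fun r => x (σ r))

/-- finite counting inside a unit window in the coordinates outside the range of `σ` -/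
def WCount (d k : ℕ) (σ : Fin k → Fin d) (L : E d ≃L[ℝ] E d) (T : Set (E d)) : Prop :=
  ∀ (Q : Set (E k)) (S : Finset (E d)) (m : Fin d → ℤ),
    IsCompact Q → Convex ℝ Q → Q.Nonempty → (S : Set (E d)) ⊆ T →
    (∀ u ∈ S, ∀ i, i ∉ Set.range σ → (m i : ℝ) ≤ (L u) i ∧ (L u) i < m i + 1) →
    (∀ u ∈ S, prj σ (L u) ∈ Q) → (S.card : ℝ) ≤ W Q

/-- the counting statement in dimension `d` -/
def CNTP (d : ℕ) : Prop := ∀ (F : Finset (E d)) (Q : Set (E d)),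
  IsCompact Q → Convex ℝ Q → (F : Set (E d)) ⊆ Q → Q.Nonempty →
  (∀ x ∈ F, ∀ y ∈ F, x ≠ y → ∃ (e : E d) (c : ℝ), ‖e‖ = 1 ∧
    ((inner ℝ e x ≤ c - 1 / 2 ∧ c + 1 / 2 ≤ inner ℝ e y) ∨
      (inner ℝ e y ≤ c - 1 / 2 ∧ c + 1 / 2 ≤ inner ℝ e x)) ∧
    ∀ z ∈ F, inner ℝ e z ≤ c - 1 / 2 ∨ c + 1 / 2 ≤ inner ℝ e z) →
  (F.card : ℝ) ≤ W Q

/-- window counting -/
def T_WIN : Prop := ∀ (d k : ℕ) (σ : Fin k → Fin d) (L : E d ≃L[ℝ] E d) (K T : Set (E d)),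
  CNTP k → Function.Injective σ → IsCompact K → Convex ℝ K → (interior K).Nonempty →
  (∀ a : E d, ∃ x ∈ K, ∃ y ∈ K,
    Real.sqrt (∑ r, a (σ r) ^ 2) + ((∑ i, |a i|) - ∑ r, |a (σ r)|) ≤
      inner ℝ a (L x) - inner ℝ a (L y)) →
  TotSep K T → WCount d k σ L T

/-- counting in cubes -/
def T_CUC : Prop := ∀ (d k : ℕ) (σ : Fin k → Fin d) (L : E d ≃L[ℝ] E d) (T : Set (E d))
  (N : ℕ) (z : Fin d → ℤ) (S : Finset (E d)),
  Function.Injective σ → 1 ≤ N → WCount d k σ L T → (S : Set (E d)) ⊆ T →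
  (∀ u ∈ S, ∀ i, (z i : ℝ) ≤ (L u) i ∧ (L u) i < z i + N) →
  (S.card : ℝ) ≤ (N : ℝ) ^ (d - k) * W {x : E k | ∀ r, x r ∈ Set.Icc (0 : ℝ) N}

/-- the Wills functional of large cubes -/
def T_CUW : Prop := ∀ (k : ℕ) (ε : ℝ), 0 < ε → ∃ N : ℕ, 1 ≤ N ∧
  W {x : E k | ∀ r, x r ∈ Set.Icc (0 : ℝ) N} ≤ (1 + ε) * (N : ℝ) ^ k

/-- from counting in the cells of cubical grids to density, arbitrary windows -/
def T_GRD : Prop := ∀ (d : ℕ) (L : E d ≃L[ℝ] E d) (K T : Set (E d)), 1 ≤ d → IsCompact K →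
  (∀ ε : ℝ, 0 < ε → ∃ N : ℕ, 1 ≤ N ∧ ∀ (z : Fin d → ℤ) (S : Finset (E d)),
    (S : Set (E d)) ⊆ T → (∀ u ∈ S, ∀ i, (z i : ℝ) ≤ (L u) i ∧ (L u) i < z i + N) →
    (S.card : ℝ) ≤ (1 + ε) * (N : ℝ) ^ d) →
  ∀ Om : Set (E d), IsCompact Om → Convex ℝ Om → (0 : E d) ∈ interior Om →
  Filter.limsup (fun R : ℝ =>
    (({t ∈ T | (((fun x => t + x) '' K) ∩ ((fun x => R • x) '' Om)).Nonempty}.encard : ℕ∞)
      : ℝ≥0∞) / volume ((fun x => R • x) '' Om)) Filter.atTop ≤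
    ENNReal.ofReal |LinearMap.det (L : E d →ₗ[ℝ] E d)|

/-- the upper bound in every dimension -/
def T_UPC : Prop := ∀ M : ℕ, 2 ≤ M → (∀ k : ℕ, 2 ≤ k → k ≤ M → CNTP k) →
  ∀ (d : ℕ) (I : Finset (Fin d)) (w : Fin d → E d) (v : E d)
  (K T : Set (E d)), 2 ≤ d → I.card ≤ M →
  LinearIndependent ℝ w → IsCompact K → Convex ℝ K → (interior K).Nonempty →
  AsWide (EllPar w v I) K → TotSep K T →
  upDens K T ≤ volume K / volume (Par w v) ∧ upDensC K T ≤ volume K / volume (Par w v)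

end Pool.Agent.H73.TS
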