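import Pool.Agent.H73.TS.AsmA
import Pool.Agent.H73.TS.TargetsC
import Pool.Agent.H17.TS.TZ
import Pool.Agent.H17.TS.ASY
import Pool.Agent.H62.TS.WIN
import Pool.Agent.H62.TS.CUC
import Pool.Agent.H20.TS.CUW
import Pool.Agent.H83.TS.PAR
import Pool.Agent.H31.TS.PAQ
import Pool.Agent.H66.TS.HAQ
import Pool.Agent.H78.TS.LAT

/-!
Assembly: counting, minimality, lattice packing.
-/

namespace Pool.Agent.H73.TS

theorem bCNT : T_CNT := aCNT Pool.Agent.H17.TS.tz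

theorem bCNTP (k : ℕ) (h2 : 2 ≤ k) (h8 : k ≤ 8) : CNTP k := fun F Q hQ hQc hF hne hs =>
  bCNT k F Q h2 h8 hQ hQc hF hne hs

theorem bHAQ : T_HAQ := Pool.Agent.H66.TS.haq (Pool.Agent.H31.TS.paq Pool.Agent.H83.TS.par)

end Pool.Agent.H73.TS
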