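import Pool.Agent.H73.TS.AsmB
import Pool.Agent.H69.TS.UPC

/-!
Assembly: the upper bound in every dimension.
-/

namespace Pool.Agent.H73.TS

theorem bUPC : T_UPC :=
  Pool.Agent.H69.TS.upc Pool.Agent.H62.TS.win (Pool.Agent.H62.TS.cuc Pool.Agent.H11.TS.iso)
    (Pool.Agent.H20.TS.cuw (Pool.Agent.H17.TS.asy aINT)) Pool.Agent.H20.TS.grd
    Pool.Agent.H83.TS.par

end Pool.Agent.H73.TS
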