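import Pool.Agent.H73.TS.Defs

/-!
Basic lemmas on `cons`.
-/

open MeasureTheory Set Metric
open scoped ENNReal

namespace Pool.Agent.H73.TS

/-- The last coordinates. -/
noncomputable def tl {n : ℕ} (x : E (n + 1)) : E n := WithLp.toLp 2 (fun i => x i.succ)

@[simp] theorem cons_zero' {n : ℕ} (s : ℝ) (y : E n) : cons s y 0 = s := by
  simp [cons]

@[simp] theorem cons_succ' {n : ℕ} (s : ℝ) (y : E n) (i : Fin n) : cons s y i.succ = y i := by
  simp [cons]

@[simp] theorem tl_apply {n : ℕ} (x : E (n + 1)) (i : Fin n) : tl x i = x i.succ := rfl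

@[simp] theorem tl_cons {n : ℕ} (s : ℝ) (y : E n) : tl (cons s y) = y := by
  ext i; simp

@[simp] theorem cons_tl {n : ℕ} (x : E (n + 1)) : cons (x 0) (tl x) = x := by
  ext i
  refine Fin.cases ?_ (fun j => ?_) i
  · simp
  · simp

theorem cons_sub {n : ℕ} (s t : ℝ) (y z : E n) : cons s y - cons t z = cons (s - t) (y - z) := by
  ext i
  refine Fin.cases ?_ (fun j => ?_) i
  · simp
  · simp

theorem cons_add {n : ℕ} (s t : ℝ) (y z : E n) : cons s y + cons t z = cons (s + t) (y + z) := by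
  ext i
  refine Fin.cases ?_ (fun j => ?_) i
  · simp
  · simp

theorem smul_cons {n : ℕ} (a s : ℝ) (y : E n) : a • cons s y = cons (a * s) (a • y) := by
  ext i
  refine Fin.cases ?_ (fun j => ?_) i
  · simp
  · simp

theorem norm_cons_sq {n : ℕ} (s : ℝ) (y : E n) : ‖cons s y‖ ^ 2 = s ^ 2 + ‖y‖ ^ 2 := by
  rw [EuclideanSpace.norm_sq_eq, EuclideanSpace.norm_sq_eq, Fin.sum_univ_succ]
  simp

theorem dist_cons_sq {n : ℕ} (s t : ℝ) (y z : E n) :
    dist (cons s y) (cons t z) ^ 2 = (s - t) ^ 2 + dist y z ^ 2 := by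
  rw [dist_eq_norm, cons_sub, norm_cons_sq, dist_eq_norm]

theorem continuous_cons {n : ℕ} : Continuous (fun p : ℝ × E n => cons p.1 p.2) := by
  unfold cons
  apply (PiLp.continuous_toLp 2 _).comp
  apply continuous_pi
  intro i
  refine Fin.cases ?_ (fun j => ?_) i
  · simpa using continuous_fst
  · simp only [Fin.cons_succ]
    have : Continuous fun y : E n => y j := by fun_prop
    exact this.comp continuous_snd

theorem continuous_tl {n : ℕ} : Continuous (tl : E (n + 1) → E n) := by
  unfold tl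
  apply (PiLp.continuous_toLp 2 _).comp
  apply continuous_pi
  intro i
  fun_prop

theorem mem_sec {n : ℕ} (P : Set (E (n + 1))) (t : ℝ) (y : E n) : y ∈ sec P t ↔ cons t y ∈ P :=
  Iff.rfl

end Pool.Agent.H73.TS
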