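import Mathlib

/-!
Totally separable packings and the Wills functional.  Definitions.
-/

open MeasureTheory Set Metric
open scoped ENNReal

namespace Pool.Agent.H73.TS

/-- Euclidean space of dimension `d`. -/
abbrev E (d : ℕ) := EuclideanSpace ℝ (Fin d)

/-- The Wills functional `W(Q) = ∫ exp(-π dist(x,Q)^2) dx`. -/
noncomputable def W {d : ℕ} (Q : Set (E d)) : ℝ :=
  ∫ x : E d, Real.exp (-(Real.pi * infDist x Q ^ 2))

/-- The point of `E (n+1)` with first coordinate `s` and remaining coordinates `y`. -/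
noncomputable def cons {n : ℕ} (s : ℝ) (y : E n) : E (n + 1) :=
  WithLp.toLp 2 (Fin.cons s (fun i => y i))

/-- The section at height `t`. -/
def sec {n : ℕ} (P : Set (E (n + 1))) (t : ℝ) : Set (E n) := {y | cons t y ∈ P}

/-- `er c = ∫_0^c exp(-π s^2) ds`. -/
noncomputable def er (c : ℝ) : ℝ := ∫ s in (0 : ℝ)..c, Real.exp (-(Real.pi * s ^ 2))

/-- `qf c = exp(-π c^2) + 2 π c (1/2 + er c)`. -/
noncomputable def qf (c : ℝ) : ℝ :=
  Real.exp (-(Real.pi * c ^ 2)) + 2 * Real.pi * c * (1 / 2 + er c)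

/-- The `1/15`-mean. -/
noncomputable def hh (a b t : ℝ) : ℝ :=
  ((1 - t) * a ^ ((1 : ℝ) / 15) + t * b ^ ((1 : ℝ) / 15)) ^ (15 : ℕ)

/-- The pointwise inequality behind the one variable inequality. -/
def St (c : ℝ) : Prop :=
  (1 / 2 - er c) * (1 - qf (-c)) * qf c * (1 - (qf c - 1) / 15) ≤
    (1 / 2 + er c) * (qf c - 1) * qf (-c) * (1 + (1 - qf (-c)) / 15)

/-- Lower Taylor polynomial of `π c er(c)` in the variable `t = π c^2`. -/
noncomputable def ep (t : ℝ) : ℝ :=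
  t - t ^ 2 / 3 + t ^ 3 / 10 - t ^ 4 / 42 + t ^ 5 / 216 - t ^ 6 / 1320 + t ^ 7 / 9360
    - t ^ 8 / 75600

/-- Lower Taylor polynomial of `(qf c + qf (-c)) / 2 - 1` in the variable `t = π c^2`. -/
noncomputable def sp (t : ℝ) : ℝ :=
  t - t ^ 2 / 6 + t ^ 3 / 30 - t ^ 4 / 168 + t ^ 5 / 1080 - t ^ 6 / 7920 + t ^ 7 / 65520
    - t ^ 8 / 604800

/-- The transport statement in dimension `n`. -/
def TN (n : ℕ) : Prop :=
  ∀ (f₀ f₁ : E n → ℝ), Continuous f₀ → Continuous f₁ → (∀ x, 0 < f₀ x) → (∀ x, 0 < f₁ x) →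
    (∃ C k : ℝ, 0 < k ∧ ∀ x, f₀ x ≤ C * Real.exp (-(k * ‖x‖ ^ 2))) →
    (∃ C k : ℝ, 0 < k ∧ ∀ x, f₁ x ≤ C * Real.exp (-(k * ‖x‖ ^ 2))) →
    ∫ x, f₀ x = 1 → ∫ x, f₁ x = 1 →
    ∀ t : ℝ, 0 < t → t < 1 →
    ∀ F b₀ b₁ : E n → ℝ≥0∞, Measurable F → Measurable b₀ → Measurable b₁ →
    ∀ K : ℝ≥0∞,
    (∀ x y : E n, K ≤ F ((1 - t) • x + t • y) *
        ENNReal.ofReal (((1 - t) * (f₀ x) ^ (-((1 : ℝ) / n)) +
          t * (f₁ y) ^ (-((1 : ℝ) / n))) ^ n) + b₀ x + b₁ y) →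
    K ≤ (∫⁻ x, F x) + (∫⁻ x, b₀ x * ENNReal.ofReal (f₀ x)) +
      ∫⁻ x, b₁ x * ENNReal.ofReal (f₁ x)

/-- The parallelotope `v + ∑ [0,1] w_i`. -/
def Par {d : ℕ} (w : Fin d → E d) (v : E d) : Set (E d) :=
  {y | ∃ a : Fin d → ℝ, (∀ i, a i ∈ Set.Icc (0 : ℝ) 1) ∧ y = v + ∑ i, a i • w i}

/-- The ellipsoid inscribed in `Par w v`: the image of the ball of diameter one inscribed in
the unit cube. -/
def Ell {d : ℕ} (w : Fin d → E d) (v : E d) : Set (E d) :=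
  {y | ∃ a : Fin d → ℝ, (∑ i, a i ^ 2 ≤ 1 / 4) ∧ y = v + ∑ i, (1 / 2 + a i) • w i}

/-- The translates `t + K`, `t ∈ T`, have pairwise disjoint interiors. -/
def Packing {d : ℕ} (K T : Set (E d)) : Prop :=
  ∀ t ∈ T, ∀ s ∈ T, t ≠ s →
    interior ((fun x => t + x) '' K) ∩ interior ((fun x => s + x) '' K) = ∅

/-- Any two of the translates are separated by a hyperplane that is disjoint from the interior
of every translate of the family. -/
def TotSep {d : ℕ} (K T : Set (E d)) : Prop :=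
  ∀ t ∈ T, ∀ s ∈ T, t ≠ s →
    ∃ (f : E d →L[ℝ] ℝ) (c : ℝ), f ≠ 0 ∧
      (∀ x ∈ K, f (t + x) ≤ c) ∧ (∀ x ∈ K, c ≤ f (s + x)) ∧
      ∀ u ∈ T, ∀ y ∈ interior ((fun x => u + x) '' K), f y ≠ c

/-- The upper density of the union of the translates (measured in large balls). -/
noncomputable def upDens {d : ℕ} (K T : Set (E d)) : ℝ≥0∞ :=
  Filter.limsup
    (fun R : ℝ => volume ((⋃ t ∈ T, (fun x => t + x) '' K) ∩ ball (0 : E d) R) /
      volume (ball (0 : E d) R)) Filter.atTop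

end Pool.Agent.H73.TS
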