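import Pool.Agent.H73.TS.Basic

/-!
Totally separable packings: width, cubical windows, the lattice spanned by the edge vectors.
-/

open MeasureTheory Set Metric
open scoped ENNReal

namespace Pool.Agent.H73.TS

/-- `K` is in every direction at least as wide as `A`: for every linear functional `f` the
oscillation of `f` on `K` is at least the oscillation of `f` on `A`. -/
def AsWide {d : ℕ} (A K : Set (E d)) : Prop :=
  ∀ f : E d →L[ℝ] ℝ, ∀ p ∈ A, ∀ q ∈ A, ∃ x ∈ K, ∃ y ∈ K, f p - f q ≤ f x - f y

/-- The cube `[-r, r]^d`. -/
def Cube (d : ℕ) (r : ℝ) : Set (E d) := {x | ∀ i, |x i| ≤ r}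

/-- The upper density of the family of the translates `t + K`, `t ∈ T`: the limit superior, as
`r → ∞`, of the total volume of the translates contained in the cube `[-r, r]^d` divided by the
volume of this cube. -/
noncomputable def upDensC {d : ℕ} (K T : Set (E d)) : ℝ≥0∞ :=
  Filter.limsup
    (fun r : ℝ =>
      (∑' t : {t : E d // t ∈ T ∧ (fun x => t + x) '' K ⊆ Cube d r},
        volume ((fun x => (t : E d) + x) '' K)) / volume (Cube d r)) Filter.atTop

/-- The lattice of all integral combinations of the vectors `w i`. -/
def Lat {d : ℕ} (w : Fin d → E d) : Set (E d) :=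
  {x | ∃ m : Fin d → ℤ, x = ∑ i, (m i : ℝ) • w i}

end Pool.Agent.H73.TS
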