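import Pool.Agent.H73.TS.Basic

/-!
Targets for the board `ts_modules`.
-/

open MeasureTheory Set Metric Filter
open scoped ENNReal Topology

namespace Pool.Agent.H73.TS

/-! ### Wills functional, basic facts -/

/-- measure preserving splitting of the first coordinate -/
def T_FUB : Prop := ∀ n : ℕ, ∃ e : (ℝ × E n) ≃ᵐ E (n + 1),
  (∀ p : ℝ × E n, e p = cons p.1 p.2) ∧ MeasurePreserving (fun p => e p) volume volume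

/-- a rotation moves a unit vector to the first basis vector -/
def T_ROT : Prop := ∀ (n : ℕ) (e : E (n + 1)), ‖e‖ = 1 →
  ∃ R : E (n + 1) ≃ₗᵢ[ℝ] E (n + 1), ∀ x, (R x) 0 = inner ℝ e x

/-- Gaussian domination -/
def T_DOM : Prop := ∀ (d : ℕ) (Q : Set (E d)), Q.Nonempty → Bornology.IsBounded Q →
  ∃ C : ℝ, 0 < C ∧ ∀ x : E d,
    Real.exp (-(Real.pi * infDist x Q ^ 2)) ≤ C * Real.exp (-(Real.pi / 2 * ‖x‖ ^ 2))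

/-- integrability and positivity -/
def T_INT : Prop := ∀ (d : ℕ) (Q : Set (E d)), Q.Nonempty → Bornology.IsBounded Q →
  Integrable (fun x : E d => Real.exp (-(Real.pi * infDist x Q ^ 2))) ∧
  Integrable (fun x : E d => infDist x Q ^ 2 * Real.exp (-(Real.pi * infDist x Q ^ 2))) ∧
  0 < W Q

def T_MON : Prop := ∀ (d : ℕ) (Q Q' : Set (E d)), Q.Nonempty → Q ⊆ Q' →
  Bornology.IsBounded Q' → W Q ≤ W Q'

def T_ONE : Prop := ∀ (d : ℕ) (x : E d), W ({x} : Set (E d)) = 1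

def T_ISO : Prop := ∀ (d : ℕ) (Q : Set (E d)),
  (∀ R : E d ≃ₗᵢ[ℝ] E d, W ((fun x => R x) '' Q) = W Q) ∧
  (∀ v : E d, W ((fun x => v + x) '' Q) = W Q)

/-- the Wills functional is a valuation -/
def T_VAL : Prop := ∀ (n : ℕ) (Q : Set (E (n + 1))) (c : ℝ), IsCompact Q → Convex ℝ Q →
  (Q ∩ {x | x 0 ≤ c}).Nonempty → (Q ∩ {x | c ≤ x 0}).Nonempty →
  W Q + W (Q ∩ {x | x 0 = c}) = W (Q ∩ {x | x 0 ≤ c}) + W (Q ∩ {x | c ≤ x 0})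

/-- the Wills functional does not depend on the dimension -/
def T_FLAT : Prop := ∀ (n : ℕ) (A : Set (E n)) (c : ℝ), A.Nonempty → Bornology.IsBounded A →
  W ((fun y => cons c y) '' A) = W A

/-- the slab inequality -/
def T_SLAB : Prop := ∀ (n : ℕ) (P : Set (E (n + 1))), IsCompact P →
  (∀ t ∈ Set.Icc (0 : ℝ) 1, (sec P t).Nonempty) →
  ∀ (c : ℝ) (g : ℝ → ℝ), ContinuousOn g (Set.Icc 0 1) →
  (∀ t ∈ Set.Icc (0 : ℝ) 1, g t ≤ W (sec P t)) →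
  (1 / 2 - er c) * W (sec P 0) + (1 / 2 + er c) * W (sec P 1) +
    Real.exp (-(Real.pi * c ^ 2)) * (∫ t in (0 : ℝ)..1, g t) ≤ W P

/-- second moment -/
def T_MOM : Prop := ∀ (n : ℕ) (A : Set (E n)), IsCompact A → Convex ℝ A → A.Nonempty →
  ∫ x : E n, Real.pi * infDist x A ^ 2 * Real.exp (-(Real.pi * infDist x A ^ 2)) ≤
    (n : ℝ) / 2 * W A

/-! ### Transport -/

/-- one dimensional transport -/
def T_TO : Prop := ∀ (f₀ f₁ : ℝ → ℝ), Continuous f₀ → Continuous f₁ →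
  (∀ u, 0 < f₀ u) → (∀ u, 0 < f₁ u) → Integrable f₀ → Integrable f₁ →
  ∫ u, f₀ u = 1 → ∫ u, f₁ u = 1 → ∀ t : ℝ, 0 < t → t < 1 →
  ∀ F b₀ b₁ : ℝ → ℝ≥0∞, Measurable F → Measurable b₀ → Measurable b₁ → ∀ K : ℝ≥0∞,
  (∀ u v : ℝ, K ≤ F ((1 - t) * u + t * v) *
    ENNReal.ofReal ((1 - t) / f₀ u + t / f₁ v) + b₀ u + b₁ v) →
  K ≤ (∫⁻ u, F u) + (∫⁻ u, b₀ u * ENNReal.ofReal (f₀ u)) +
    ∫⁻ u, b₁ u * ENNReal.ofReal (f₁ u)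

/-- weighted superadditivity of geometric means -/
def T_HO : Prop := ∀ (p q t a₀ a₁ b₀ b₁ : ℝ), 0 ≤ p → 0 ≤ q → 0 < p + q → 0 ≤ t → t ≤ 1 →
  0 < a₀ → 0 < a₁ → 0 < b₀ → 0 < b₁ →
  ((1 - t) * (a₀ ^ p * b₀ ^ q) ^ (1 / (p + q)) + t * (a₁ ^ p * b₁ ^ q) ^ (1 / (p + q))) ^ (p + q)
    ≤ ((1 - t) * a₀ + t * a₁) ^ p * ((1 - t) * b₀ + t * b₁) ^ q

/-- marginals of dominated positive continuous functions -/
def T_MA : Prop := ∀ (n : ℕ) (f : E (n + 1) → ℝ), Continuous f → (∀ x, 0 < f x) →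
  (∃ C k : ℝ, 0 < k ∧ ∀ x, f x ≤ C * Real.exp (-(k * ‖x‖ ^ 2))) →
  Continuous (fun u : ℝ => ∫ y : E n, f (cons u y)) ∧
  (∀ u : ℝ, 0 < ∫ y : E n, f (cons u y)) ∧
  Integrable (fun u : ℝ => ∫ y : E n, f (cons u y)) ∧
  (∀ u : ℝ, Integrable (fun y : E n => f (cons u y))) ∧
  (∫ u : ℝ, ∫ y : E n, f (cons u y)) = ∫ x, f x ∧
  (∀ u : ℝ, ∃ C k : ℝ, 0 < k ∧ ∀ y : E n, f (cons u y) ≤ C * Real.exp (-(k * ‖y‖ ^ 2)))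

/-- transport, dimension zero -/
def T_TZ : Prop := TN 0

/-- transport, induction step -/
def T_TS : Prop := ∀ n : ℕ, TN n → TN (n + 1)

/-- transport in every dimension -/
def T_TN : Prop := ∀ n : ℕ, TN n

/-! ### The Brunn-Minkowski type inequality -/

/-- chord inequality for the Gaussian -/
def T_CH : Prop := ∀ (α β t : ℝ), 0 ≤ α → 0 ≤ β → α ^ 2 + β ^ 2 ≤ 7 / 8 → 0 ≤ t → t ≤ 1 →
  (1 - t) * Real.exp (-α ^ 2) + t * Real.exp (-β ^ 2) ≤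
    Real.exp (-((1 - t) * α + t * β) ^ 2)

/-- linearization in the exponent -/
def T_LH : Prop := ∀ (a b t : ℝ), 0 < a → 0 < b → 0 ≤ t → t ≤ 1 →
  ∃ β : ℝ, β ≤ 0 ∧ ∀ ν : ℝ, 0 < ν →
    hh a b t * (1 + β * (ν - 15)) ≤ ((1 - t) * a ^ (1 / ν) + t * b ^ (1 / ν)) ^ ν

/-- the pointwise inequality -/
def T_PW : Prop := ∀ (n : ℕ) (D₀ D₁ r w₀ w₁ t : ℝ), 1 ≤ n → 0 ≤ D₀ → 0 ≤ D₁ → 0 ≤ r →
  0 ≤ t → t ≤ 1 → r ≤ (1 - t) * D₀ + t * D₁ → 0 < w₀ → 0 < w₁ →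
  ((1 - t) * w₀ ^ (1 / ((n : ℝ) + 8 / 7 * Real.pi * (D₀ ^ 2 + D₁ ^ 2))) +
    t * w₁ ^ (1 / ((n : ℝ) + 8 / 7 * Real.pi * (D₀ ^ 2 + D₁ ^ 2)))) ^
      ((n : ℝ) + 8 / 7 * Real.pi * (D₀ ^ 2 + D₁ ^ 2)) ≤
  Real.exp (-(Real.pi * r ^ 2)) *
    ((1 - t) * (Real.exp (-(Real.pi * D₀ ^ 2)) / w₀) ^ (-((1 : ℝ) / n)) +
      t * (Real.exp (-(Real.pi * D₁ ^ 2)) / w₁) ^ (-((1 : ℝ) / n))) ^ n

/-- `W^(1/15)` is concave in dimension at most 7 -/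
def T_SC : Prop := ∀ (n : ℕ) (A B C : Set (E n)) (t : ℝ), 1 ≤ n → n ≤ 7 →
  IsCompact A → Convex ℝ A → A.Nonempty → IsCompact B → Convex ℝ B → B.Nonempty →
  IsCompact C → 0 ≤ t → t ≤ 1 → (∀ a ∈ A, ∀ b ∈ B, (1 - t) • a + t • b ∈ C) →
  hh (W A) (W B) t ≤ W C

/-! ### The one variable inequality -/

/-- basic properties of `er` and `qf` -/
def T_QB : Prop :=
  (∀ c : ℝ, HasDerivAt er (Real.exp (-(Real.pi * c ^ 2))) c) ∧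
  (∀ c : ℝ, er (-c) = - er c) ∧
  (∀ c : ℝ, er c < 1 / 2) ∧ (∀ c : ℝ, -(1 / 2) < er c) ∧
  (∀ c : ℝ, HasDerivAt qf (2 * Real.pi * (1 / 2 + er c)) c) ∧
  (∀ c : ℝ, qf c = qf (-c) + 2 * Real.pi * c) ∧
  (∀ c : ℝ, 0 < qf c) ∧ StrictMono qf ∧ qf 0 = 1

/-- Taylor lower bounds -/
def T_ES : Prop := ∀ c : ℝ, 0 ≤ c →
  ep (Real.pi * c ^ 2) ≤ Real.pi * c * er c ∧
  sp (Real.pi * c ^ 2) ≤ (qf c + qf (-c)) / 2 - 1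

/-- Mills ratio bound -/
def T_MI : Prop := ∀ c : ℝ, 0 < c →
  (1 / 2 - er c) * (2 * Real.pi * c) *
    ((2 * Real.pi * c ^ 2) ^ 2 + 10 * (2 * Real.pi * c ^ 2) + 15) ≤
  Real.exp (-(Real.pi * c ^ 2)) *
    ((2 * Real.pi * c ^ 2) ^ 2 + 9 * (2 * Real.pi * c ^ 2) + 8)

/-- polynomial inequality on `[0,2]` -/
def T_PO : Prop := ∀ t : ℝ, 0 ≤ t → t ≤ 2 →
  0 ≤ 2 * ep t * (1 + (sp t ^ 2 - 3.1416 * t) / 15)
    - (1 - sp t / 15) * (3.1416 * t - sp t - sp t ^ 2) + 3.1416 * t / 15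

/-- `St c` for `π c^2 ≤ 2` -/
def T_SS : Prop := ∀ c : ℝ, 0 ≤ c → Real.pi * c ^ 2 ≤ 2 → St c

/-- `St c` for `π c^2 ≥ 2` -/
def T_SL : Prop := ∀ c : ℝ, 0 < c → 2 ≤ Real.pi * c ^ 2 → qf c < 16 → St c

/-- consequence of `St` by integration -/
def T_DD : Prop := ∀ c : ℝ, 0 ≤ c → qf c < 16 →
  qf c * (16 - qf c) ^ 15 ≤ qf (-c) * (16 - qf (-c)) ^ 15

/-- the one variable inequality -/
def T_ND : Prop := ∀ w₀ w₁ : ℝ, 0 < w₀ → w₀ ≤ w₁ →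
  ∃ c : ℝ, w₀ + w₁ ≤ (1 / 2 - er c) * w₀ + (1 / 2 + er c) * w₁ +
    Real.exp (-(Real.pi * c ^ 2)) * ∫ t in (0 : ℝ)..1, hh w₀ w₁ t

/-! ### Superadditivity and counting -/

/-- slab bodies -/
def T_KEY : Prop := ∀ (n : ℕ) (P : Set (E (n + 1))), 1 ≤ n → n ≤ 7 → IsCompact P →
  Convex ℝ P → (sec P 0).Nonempty → (sec P 1).Nonempty → W (sec P 0) + W (sec P 1) ≤ W P

/-- superadditivity for the slab `0 < x 0 < 1` -/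
def T_SUA : Prop := ∀ (n : ℕ) (Q : Set (E (n + 1))), 1 ≤ n → n ≤ 7 → IsCompact Q →
  Convex ℝ Q → (Q ∩ {x | x 0 ≤ 0}).Nonempty → (Q ∩ {x | 1 ≤ x 0}).Nonempty →
  W (Q ∩ {x | x 0 ≤ 0}) + W (Q ∩ {x | 1 ≤ x 0}) ≤ W Q

/-- superadditivity -/
def T_SUP : Prop := ∀ (d : ℕ) (Q : Set (E d)) (e : E d) (c : ℝ), 2 ≤ d → d ≤ 8 →
  IsCompact Q → Convex ℝ Q → ‖e‖ = 1 →
  (Q ∩ {x | inner ℝ e x ≤ c - 1 / 2}).Nonempty →
  (Q ∩ {x | c + 1 / 2 ≤ inner ℝ e x}).Nonempty →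
  W (Q ∩ {x | inner ℝ e x ≤ c - 1 / 2}) + W (Q ∩ {x | c + 1 / 2 ≤ inner ℝ e x}) ≤ W Q

/-- counting -/
def T_CNT : Prop := ∀ (d : ℕ) (F : Finset (E d)) (Q : Set (E d)), 2 ≤ d → d ≤ 8 →
  IsCompact Q → Convex ℝ Q → (F : Set (E d)) ⊆ Q → Q.Nonempty →
  (∀ x ∈ F, ∀ y ∈ F, x ≠ y → ∃ (e : E d) (c : ℝ), ‖e‖ = 1 ∧
    ((inner ℝ e x ≤ c - 1 / 2 ∧ c + 1 / 2 ≤ inner ℝ e y) ∨
      (inner ℝ e y ≤ c - 1 / 2 ∧ c + 1 / 2 ≤ inner ℝ e x)) ∧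
    ∀ z ∈ F, inner ℝ e z ≤ c - 1 / 2 ∨ c + 1 / 2 ≤ inner ℝ e z) →
  (F.card : ℝ) ≤ W Q

/-- asymptotics -/
def T_ASY : Prop := ∀ (d : ℕ) (Q : Set (E d)), IsCompact Q → Q.Nonempty →
  Tendsto (fun R : ℝ => W ((fun x => R • x) '' Q) / R ^ d) atTop (𝓝 (volume Q).toReal)

/-- unit slabs from separating hyperplanes -/
def T_SEP : Prop := ∀ (d : ℕ) (L : E d ≃L[ℝ] E d) (x₀ : E d) (K : Set (E d)),
  IsClosed K → Convex ℝ K → (∀ b : E d, ‖b‖ ≤ 1 / 2 → x₀ + L.symm b ∈ K) →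
  ∀ (f : E d →L[ℝ] ℝ) (c : ℝ), f ≠ 0 →
  ∃ (e : E d) (c' : ℝ), ‖e‖ = 1 ∧ ∀ u : E d,
    (∀ y ∈ interior ((fun x => u + x) '' K), f y ≠ c) →
    ((inner ℝ e (L (u + x₀)) ≤ c' - 1 / 2 ∧ ∀ x ∈ K, f (u + x) ≤ c) ∨
      (c' + 1 / 2 ≤ inner ℝ e (L (u + x₀)) ∧ ∀ x ∈ K, c ≤ f (u + x)))

/-- finite counting for a totally separable family -/
def T_FIN : Prop := ∀ (d : ℕ) (L : E d ≃L[ℝ] E d) (x₀ : E d) (K T Q : Set (E d))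
  (S : Finset (E d)), 2 ≤ d → d ≤ 8 →
  IsClosed K → Convex ℝ K → (∀ b : E d, ‖b‖ ≤ 1 / 2 → x₀ + L.symm b ∈ K) →
  TotSep K T → (S : Set (E d)) ⊆ T → IsCompact Q → Convex ℝ Q → Q.Nonempty →
  (∀ u ∈ S, L (u + x₀) ∈ Q) → (S.card : ℝ) ≤ W Q

/-- density from counting -/
def T_LIM : Prop := ∀ (d : ℕ) (L : E d ≃L[ℝ] E d) (x₀ : E d) (K T : Set (E d)), 1 ≤ d →
  IsCompact K →
  (∀ (Q : Set (E d)) (S : Finset (E d)), IsCompact Q → Convex ℝ Q → Q.Nonempty →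
    (S : Set (E d)) ⊆ T → (∀ u ∈ S, L (u + x₀) ∈ Q) → (S.card : ℝ) ≤ W Q) →
  upDens K T ≤ volume K * ENNReal.ofReal |LinearMap.det (L : E d →ₗ[ℝ] E d)|

/-- coordinates adapted to a parallelotope -/
def T_PAR : Prop := ∀ (d : ℕ) (w : Fin d → E d) (v : E d), LinearIndependent ℝ w →
  ∃ L : E d ≃L[ℝ] E d, (∀ i, L (w i) = EuclideanSpace.single i (1 : ℝ)) ∧
    volume (Par w v) * ENNReal.ofReal |LinearMap.det (L : E d →ₗ[ℝ] E d)| = 1 ∧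
    (∀ b : E d, ‖b‖ ≤ 1 / 2 → (v + ∑ i, (1 / 2 : ℝ) • w i) + L.symm b ∈ Ell w v)

/-- Hadamard: the parallelotope is a smallest one around the ellipsoid -/
def T_HAD : Prop := ∀ (d : ℕ) (w w' : Fin d → E d) (v v' : E d), LinearIndependent ℝ w →
  LinearIndependent ℝ w' → Ell w v ⊆ Par w' v' → volume (Par w v) ≤ volume (Par w' v')

/-- the main upper bound -/
def T_MAIN : Prop := ∀ (d : ℕ) (w : Fin d → E d) (v : E d) (K T : Set (E d)), 2 ≤ d → d ≤ 8 →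
  LinearIndependent ℝ w → IsCompact K → Convex ℝ K → Ell w v ⊆ K → TotSep K T →
  upDens K T ≤ volume K / volume (Par w v)

end Pool.Agent.H73.TS
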