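import Pool.Agent.H73.TS.Targets
import Pool.Agent.H73.TS.DefsB

/-!
Further targets for the board `ts_modules`.
-/

open MeasureTheory Set Metric Filter
open scoped ENNReal Topology

namespace Pool.Agent.H73.TS

/-- unit slabs from separating hyperplanes, width version -/
def T_SEQ : Prop := ∀ (d : ℕ) (L : E d ≃L[ℝ] E d) (K : Set (E d)),
  IsCompact K → Convex ℝ K → (interior K).Nonempty →
  (∀ g : E d →L[ℝ] ℝ, ∃ x ∈ K, ∃ y ∈ K,
    ‖g.comp (L.symm : E d →L[ℝ] E d)‖ ≤ g x - g y) →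
  ∀ (f : E d →L[ℝ] ℝ) (c : ℝ), f ≠ 0 →
  ∃ (e : E d) (c' : ℝ), ‖e‖ = 1 ∧ ∀ u : E d,
    (∀ y ∈ interior ((fun x => u + x) '' K), f y ≠ c) →
    ((inner ℝ e (L u) ≤ c' - 1 / 2 ∧ ∀ x ∈ K, f (u + x) ≤ c) ∨
      (c' + 1 / 2 ≤ inner ℝ e (L u) ∧ ∀ x ∈ K, c ≤ f (u + x)))

/-- finite counting, width version -/
def T_FIQ : Prop := ∀ (d : ℕ) (L : E d ≃L[ℝ] E d) (K T Q : Set (E d))
  (S : Finset (E d)), 2 ≤ d → d ≤ 8 →
  IsCompact K → Convex ℝ K → (interior K).Nonempty →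
  (∀ g : E d →L[ℝ] ℝ, ∃ x ∈ K, ∃ y ∈ K,
    ‖g.comp (L.symm : E d →L[ℝ] E d)‖ ≤ g x - g y) →
  TotSep K T → (S : Set (E d)) ⊆ T → IsCompact Q → Convex ℝ Q → Q.Nonempty →
  (∀ u ∈ S, L u ∈ Q) → (S.card : ℝ) ≤ W Q

/-- density from counting, arbitrary windows -/
def T_LIQ : Prop := ∀ (d : ℕ) (L : E d ≃L[ℝ] E d) (K T : Set (E d)), 1 ≤ d →
  IsCompact K →
  (∀ (Q : Set (E d)) (S : Finset (E d)), IsCompact Q → Convex ℝ Q → Q.Nonempty →
    (S : Set (E d)) ⊆ T → (∀ u ∈ S, L u ∈ Q) → (S.card : ℝ) ≤ W Q) →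
  ∀ Om : Set (E d), IsCompact Om → Convex ℝ Om → (0 : E d) ∈ interior Om →
  Filter.limsup (fun R : ℝ =>
    (({t ∈ T | (((fun x => t + x) '' K) ∩ ((fun x => R • x) '' Om)).Nonempty}.encard : ℕ∞)
      : ℝ≥0∞) / volume ((fun x => R • x) '' Om)) Filter.atTop ≤
    ENNReal.ofReal |LinearMap.det (L : E d →ₗ[ℝ] E d)|

/-- from counting to the two densities -/
def T_DEN : Prop := ∀ (d : ℕ) (K T : Set (E d)) (q : ℝ≥0∞), 1 ≤ d → IsCompact K →
  (∀ Om : Set (E d), IsCompact Om → Convex ℝ Om → (0 : E d) ∈ interior Om →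
    Filter.limsup (fun R : ℝ =>
      (({t ∈ T | (((fun x => t + x) '' K) ∩ ((fun x => R • x) '' Om)).Nonempty}.encard : ℕ∞)
        : ℝ≥0∞) / volume ((fun x => R • x) '' Om)) Filter.atTop ≤ q) →
  upDens K T ≤ volume K * q ∧ upDensC K T ≤ volume K * q

/-- coordinates adapted to a parallelotope, width of the inscribed ellipsoid -/
def T_PAQ : Prop := ∀ (d : ℕ) (w : Fin d → E d) (v : E d), LinearIndependent ℝ w →
  ∃ L : E d ≃L[ℝ] E d, (∀ i, L (w i) = EuclideanSpace.single i (1 : ℝ)) ∧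
    volume (Par w v) * ENNReal.ofReal |LinearMap.det (L : E d →ₗ[ℝ] E d)| = 1 ∧
    (∀ g : E d →L[ℝ] ℝ, ∃ p ∈ Ell w v, ∃ q ∈ Ell w v,
      ‖g.comp (L.symm : E d →L[ℝ] E d)‖ ≤ g p - g q)

/-- Hadamard, width version: no parallelotope of smaller volume contains a body at least as
wide as the ellipsoid -/
def T_HAQ : Prop := ∀ (d : ℕ) (w w' : Fin d → E d) (v v' : E d) (K : Set (E d)),
  LinearIndependent ℝ w → LinearIndependent ℝ w' → AsWide (Ell w v) K → K ⊆ Par w' v' →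
  volume (Par w v) ≤ volume (Par w' v')

/-- the lattice packing is a totally separable packing -/
def T_LAT : Prop := ∀ (d : ℕ) (w : Fin d → E d) (v : E d) (K : Set (E d)),
  LinearIndependent ℝ w → K ⊆ Par w v → Packing K (Lat w) ∧ TotSep K (Lat w)

/-- counting the cells of the lattice tiling inside a window -/
def T_LAC : Prop := ∀ (d : ℕ) (w : Fin d → E d) (v : E d), 1 ≤ d → LinearIndependent ℝ w →
  ∀ Om : Set (E d), IsCompact Om → Convex ℝ Om → (0 : E d) ∈ interior Om →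
  (volume (Par w v))⁻¹ ≤ Filter.liminf (fun R : ℝ =>
    (({t ∈ Lat w | (fun x => t + x) '' (Par w v) ⊆ (fun x => R • x) '' Om}.encard : ℕ∞)
      : ℝ≥0∞) / volume ((fun x => R • x) '' Om)) Filter.atTop

/-- density of the lattice packing -/
def T_LAD : Prop := ∀ (d : ℕ) (w : Fin d → E d) (v : E d) (K : Set (E d)), 1 ≤ d →
  LinearIndependent ℝ w → IsCompact K → Convex ℝ K → K ⊆ Par w v →
  volume K / volume (Par w v) ≤ upDens K (Lat w) ∧
  volume K / volume (Par w v) ≤ upDensC K (Lat w)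

/-- the upper bound -/
def T_UPB : Prop := ∀ (d : ℕ) (w : Fin d → E d) (v : E d) (K T : Set (E d)), 2 ≤ d → d ≤ 8 →
  LinearIndependent ℝ w → IsCompact K → Convex ℝ K → (interior K).Nonempty →
  AsWide (Ell w v) K → TotSep K T →
  upDens K T ≤ volume K / volume (Par w v) ∧ upDensC K T ≤ volume K / volume (Par w v)

end Pool.Agent.H73.TS
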